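import Pool.Agent.H46.CH.DU

/-!
# MP_64fb07_lc, part D: blow-ups of trees are generated
-/

set_option autoImplicit false

namespace Pool.Agent.H88.CHD

open Classical Pool.Agent.H8.VR Pool.Agent.H69.VR Pool.Agent.H46.CH
open Pool.Agent.H8.JS (NTM Cfg Mv lang num)

/-- the colours of the blocks in the tree with the root `r` -/
noncomputable def tcl (p : ℕ → ℕ) (r i : ℕ) : Fin 3 :=
  if i = r then 0 else if 0 < i ∧ p i = r then 1 else 2

/-- `k` is `j` or an ancestor of `j` -/
def An (p : ℕ → ℕ) (k j : ℕ) : Prop := Relation.ReflTransGen (fun a b => 0 < a ∧ p a = b) j k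

theorem An.refl (p : ℕ → ℕ) (k : ℕ) : An p k k := Relation.ReflTransGen.refl

theorem An.par {p : ℕ → ℕ} {k j : ℕ} (h : An p k j) (hj : j ≠ k) : 0 < j ∧ An p k (p j) := by
  rcases Relation.ReflTransGen.cases_head h with h | ⟨c, ⟨h1, h2⟩, h3⟩
  · exact absurd h hj
  · rw [← h2] at h3
    exact ⟨h1, h3⟩

theorem An.chd {p : ℕ → ℕ} {k j : ℕ} (hj : 0 < j) (h : An p k (p j)) : An p k j :=
  Relation.ReflTransGen.head ⟨hj, rfl⟩ h

theorem An.le {p : ℕ → ℕ} (hp : ∀ i, 0 < i → p i < i) {k j : ℕ} (h : An p k j) : k ≤ j := by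
  induction h with
  | refl => exact le_refl _
  | tail _ h ih =>
    have := hp _ h.1
    omega

theorem tb_pt {A : Type} {P : ℕ → A → Prop} {R : ℕ → A → A → Prop} (s : Bool) (a : A)
    (c : A → Fin 3) (hc : c a = 0) (hR : R 0 a a) : tbG.Gen 1 P R s {a} c := by
  refine Gram.Gen.pt (G := tbG) (m := 1) (P := P) (R := R)
    { s := s, q := 0, un := fun _ => decide (P 0 a) = true, lp := fun _ => True } ?_ a c hc ?_ ?_
  · refine List.mem_flatMap.2 ⟨s, by cases s <;> simp, List.mem_map.2 ⟨decide (P 0 a), ?_, rfl⟩⟩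
    cases decide (P 0 a) <;> simp
  · intro i hi
    obtain rfl : i = 0 := by omega
    simp
  · intro i hi
    obtain rfl : i = 0 := by omega
    simp [hR]

theorem tga_aux {A : Type} [Finite A] (P : ℕ → A → Prop) (R : ℕ → A → A → Prop)
    (b : A → ℕ) (p : ℕ → ℕ) (hp : ∀ i, 0 < i → p i < i)
    (hR : ∀ x y, (R 0 x y ↔ b y = b x ∨ (0 < b y ∧ p (b y) = b x))) : ∀ (n : ℕ) (X : Set A),
    X.ncard = n → ∀ r, (∃ x ∈ X, b x = r) → (∀ x ∈ X, b x ≠ r → 0 < b x ∧
      (∃ y ∈ X, b y = p (b x)) ∧ ∀ y, b y = b x → y ∈ X) →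
    ∀ c : A → Fin 3, (∀ x ∈ X, c x = tcl p r (b x)) → tbG.Gen 1 P R true X c := by
  intro n
  induction n using Nat.strong_induction_on with
  | _ n ih =>
  rintro X hX r ⟨x₀, hx₀, hr₀⟩ h1 c hc
  by_cases h2 : ∃ x ∈ X, b x ≠ r
  · -- a child of the root
    obtain ⟨x, hx, hxr, hpx⟩ : ∃ x ∈ X, b x ≠ r ∧ p (b x) = r := by
      have h3 : ∃ k, ∃ x ∈ X, b x ≠ r ∧ b x = k := by
        obtain ⟨x, hx, hxr⟩ := h2
        exact ⟨b x, x, hx, hxr, rfl⟩
      obtain ⟨x, hx, hxr, hk⟩ := Nat.find_spec h3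
      refine ⟨x, hx, hxr, ?_⟩
      by_contra h4
      obtain ⟨h5, ⟨y, hy, hyx⟩, _⟩ := h1 x hx hxr
      have h6 := hp _ h5
      exact Nat.find_min h3 (by rw [← hk]; exact h6) ⟨y, hy, by rw [hyx]; exact h4, hyx⟩
    obtain ⟨hk0, _, _⟩ := h1 x hx hxr
    have hrk : r < b x := by
      have := hp _ hk0
      omega
    set k := b x with hk
    set Y : Set A := {y | y ∈ X ∧ An p k (b y)} with hYdef
    have hxY : x ∈ Y := ⟨hx, An.refl p k⟩
    have hYX : Y ⊆ X := fun y hy => hy.1
    have hx₀' : x₀ ∈ X \ Y := by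
      refine ⟨hx₀, fun h => ?_⟩
      have := An.le hp h.2
      omega
    have hYlt : Y.ncard < n := by
      rw [← hX]
      exact Set.ncard_lt_ncard ⟨hYX, fun h => hx₀'.2 (h hx₀)⟩ (Set.toFinite _)
    have hXlt : (X \ Y).ncard < n := by
      rw [← hX]
      exact Set.ncard_lt_ncard ⟨Set.sdiff_subset, fun h => (h hx).2 hxY⟩ (Set.toFinite _)
    have gY := ih _ hYlt Y rfl k ⟨x, hxY, rfl⟩ (by
      intro y hy hyk
      obtain ⟨h3, h4⟩ := An.par hy.2 hyk
      have h5 := An.le hp hy.2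
      obtain ⟨_, ⟨z, hz, hzy⟩, h6⟩ := h1 y hy.1 (by omega)
      refine ⟨h3, ⟨z, ⟨hz, ?_⟩, hzy⟩, fun z hz => ⟨h6 z hz, ?_⟩⟩
      · rw [hzy]
        exact h4
      · rw [hz]
        exact hy.2) (fun y => tcl p k (b y)) (fun _ _ => rfl)
    have gX := ih _ hXlt (X \ Y) rfl r ⟨x₀, hx₀', hr₀⟩ (by
      intro y hy hyr
      obtain ⟨h3, ⟨z, hz, hzy⟩, h6⟩ := h1 y hy.1 hyr
      refine ⟨h3, ⟨z, ⟨hz, fun h => hy.2 ⟨hy.1, ?_⟩⟩, hzy⟩, fun z hz => ⟨h6 z hz, fun h =>
        hy.2 ⟨hy.1, ?_⟩⟩⟩
      · have h7 := h.2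
        rw [hzy] at h7
        exact An.chd h3 h7
      · have h7 := h.2
        rw [hz] at h7
        exact h7) (fun y => tcl p r (b y)) (fun _ _ => rfl)
    have eX : X \ Y ∪ Y = X := by
      rw [Set.sdiff_union_self, Set.union_eq_self_of_subset_right hYX]
    have := Gram.Gen.op (G := tbG) (m := 1) (P := P) (R := R)
      { s := true, t := true, u := true, l := fun _ p q => p = 0 ∧ q = 0, r := fun _ _ _ => False,
        f := id, g := fun q => if q = 0 then 1 else 2, D := {n | 0 < n} } (by simp [tbG])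
      (X \ Y) Y c (fun y => tcl p r (b y)) (fun y => tcl p k (b y)) gX gY
      Set.disjoint_sdiff_left ?_ ?_ ?_ ?_
    · rw [eX] at this
      exact this
    · have : 0 < (X \ Y).ncard := (Set.ncard_pos (Set.toFinite _)).2 ⟨x₀, hx₀'⟩
      exact lt_of_lt_of_le this (Nat.left_le_pair _ _)
    · intro a ha b' hb' i hi
      obtain rfl : i = 0 := by omega
      have hna : ¬ An p k (b a) := fun h => ha.2 ⟨ha.1, h⟩
      have z0 : ∀ r' i, tcl p r' i = 0 ↔ i = r' := by
        intro r' i
        unfold tcl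
        split_ifs with g1 g2
        · exact ⟨fun _ => g1, fun _ => rfl⟩
        · exact ⟨fun h => absurd h (by decide), fun h => absurd h g1⟩
        · exact ⟨fun h => absurd h (by decide), fun h => absurd h g1⟩
      constructor
      · rw [hR]
        show _ ↔ tcl p r (b a) = 0 ∧ tcl p k (b b') = 0
        rw [z0, z0]
        constructor
        · rintro (h | ⟨h, h'⟩)
          · have h7 := hb'.2
            rw [h] at h7
            exact absurd h7 hna
          · by_cases hbk : b b' = k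
            · refine ⟨?_, hbk⟩
              rw [← h', hbk, hpx]
            · have := (An.par hb'.2 hbk).2
              rw [h'] at this
              exact absurd this hna
        · rintro ⟨h, h'⟩
          rw [h, h']
          exact Or.inr ⟨hk0, hpx⟩
      · rw [hR]
        refine ⟨?_, fun h => h.elim⟩
        rintro (h | ⟨h, h'⟩)
        · rw [h] at hna
          exact hna hb'.2
        · refine hna (An.chd h ?_)
          rw [h']
          exact hb'.2
    · intro a ha
      exact hc a ha.1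
    · intro a ha
      rw [hc a ha.1]
      have h5 := An.le hp ha.2
      show tcl p r (b a) = if tcl p k (b a) = 0 then 1 else 2
      by_cases hak : b a = k
      · have e1 : tcl p k (b a) = 0 := by
          unfold tcl
          rw [if_pos hak]
        rw [if_pos e1, hak]
        unfold tcl
        rw [if_neg (by omega), if_pos ⟨hk0, hpx⟩]
      · have h6 := An.le hp (An.par ha.2 hak).2
        have e1 : tcl p k (b a) ≠ 0 := by
          unfold tcl
          rw [if_neg hak]
          split_ifs <;> decide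
        rw [if_neg e1]
        unfold tcl
        rw [if_neg (by omega), if_neg (by omega)]
  · -- one block
    have h3 : ∀ x ∈ X, b x = r := fun x hx => by
      by_contra h
      exact h2 ⟨x, hx, h⟩
    have hRxx : R 0 x₀ x₀ := (hR x₀ x₀).2 (Or.inl rfl)
    have hc0 : ∀ x ∈ X, c x = 0 := by
      intro x hx
      rw [hc x hx, h3 x hx]
      simp [tcl]
    by_cases h4 : X \ {x₀} = ∅
    · have : X = {x₀} := by
        ext y
        constructor
        · intro hy
          by_contra h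
          have : y ∈ X \ {x₀} := ⟨hy, h⟩
          rw [h4] at this
          exact this
        · intro hy
          rw [Set.mem_singleton_iff.1 hy]
          exact hx₀
      rw [this]
      exact tb_pt true x₀ c (hc0 x₀ hx₀) hRxx
    · obtain ⟨y, hy⟩ := Set.nonempty_iff_ne_empty.2 h4
      have hXlt : (X \ {x₀}).ncard < n := by
        rw [← hX]
        exact Set.ncard_lt_ncard ⟨Set.sdiff_subset, fun h => (h hx₀).2 rfl⟩ (Set.toFinite _)
      have gX := ih _ hXlt (X \ {x₀}) rfl r ⟨y, hy, h3 y hy.1⟩ (fun z hz hzr =>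
        absurd (h3 z hz.1) hzr) (fun _ => 0) (fun z hz => by rw [h3 z hz.1]; simp [tcl])
      have eX : X \ {x₀} ∪ {x₀} = X := by
        rw [Set.union_singleton, Set.insert_sdiff_singleton, Set.insert_eq_of_mem hx₀]
      have := Gram.Gen.op (G := tbG) (m := 1) (P := P) (R := R)
        { s := true, t := false, u := true, l := fun _ p _ => p = 0, r := fun _ p _ => p ≠ 2,
          f := id, g := id, D := {n | 0 < n} } (by simp [tbG]) (X \ {x₀}) {x₀} c
        (fun _ => 0) (fun _ => 0) gX (tb_pt false x₀ _ rfl hRxx)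
        (Set.disjoint_singleton_right.2 fun h => h.2 rfl) ?_ ?_ ?_ ?_
      · rw [eX] at this
        exact this
      · have : 0 < (X \ {x₀}).ncard := (Set.ncard_pos (Set.toFinite _)).2 ⟨y, hy⟩
        exact lt_of_lt_of_le this (Nat.left_le_pair _ _)
      · intro a ha b' hb' i hi
        obtain rfl := Set.mem_singleton_iff.1 hb'
        obtain rfl : i = 0 := by omega
        rw [hR, hR, h3 a ha.1, h3 _ hx₀]
        simp
      · intro a ha
        exact hc0 a ha.1
      · intro a ha
        rw [Set.mem_singleton_iff.1 ha]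
        exact hc0 x₀ hx₀

theorem pf_TGA : T_TGA := by
  rintro A _ _ P R ⟨T, b, p, hb, hp, hR⟩
  obtain ⟨x, hx⟩ := (hb 0).2 (Nat.zero_le T)
  refine ⟨fun y => tcl p 0 (b y), tga_aux P R b p hp hR _ Set.univ rfl 0
    ⟨x, Set.mem_univ x, hx⟩ ?_ _ fun _ _ => rfl⟩
  intro y _ hy
  have h1 : 0 < b y := Nat.pos_of_ne_zero hy
  have h2 := (hb (b y)).1 ⟨y, rfl⟩
  have h3 := hp _ h1
  obtain ⟨z, hz⟩ := (hb (p (b y))).2 (by omega)
  exact ⟨h1, ⟨z, Set.mem_univ z, hz⟩, fun z _ => Set.mem_univ z⟩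

end Pool.Agent.H88.CHD
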