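import Pool.Agent.H46.CH.DL

/-!
# MP_64fb07_lc, part D: from trees of blocks to sequences
-/

set_option autoImplicit false

namespace Pool.Agent.H88.CHD

open Classical Pool.Agent.H46.CH
open Pool.Agent.H8.VR (C2)
open Pool.Agent.H8.JS (NTM Cfg Mv IsComp lang num)

section
variable {J : Type} [Fintype J] {M : BM J}

/-- sequences of blocks where the root need not have a right child -/
structure PT (M : BM J) (r : Prop) (T : ℕ) (p : ℕ → ℕ) (sd : ℕ → Bool) (e : ℕ → Option M.I)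
    (v : ℕ → J → ℕ) : Prop where
  par : ∀ t, 0 < t → p t < t
  root : ∃ i, e 0 = some i
  leaf : ∀ t ≤ T, e t = none → (∀ j, v t j = 0) ∧ sd t = false ∧
    ∃ i, e (p t) = some i ∧ M.fi i ∧ M.ar i = false
  step : ∀ t ≤ T, 0 < t → ∃ i, e (p t) = some i ∧ M.Rel i (v (p t)) (v t) ∧
    (sd t = true → M.ar i = true) ∧
    ∀ i', e t = some i' → if sd t = true then M.nr i i' else M.nx i i'
  chl : ∀ t ≤ T, ∀ i, e t = some i → ∃! t', t' ≤ T ∧ 0 < t' ∧ p t' = t ∧ sd t' = false
  chr : ∀ t ≤ T, ∀ i, e t = some i → M.ar i = true → (t = 0 → r) →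
    ∃! t', t' ≤ T ∧ 0 < t' ∧ p t' = t ∧ sd t' = true
  chr0 : ¬ r → ∀ t ≤ T, 0 < t → p t = 0 → sd t = true → False

theorem PT.tr {T : ℕ} {p : ℕ → ℕ} {sd : ℕ → Bool} {e : ℕ → Option M.I} {v : ℕ → J → ℕ}
    (h : PT M True T p sd e v) : M.TR T p sd e v :=
  ⟨h.par, h.root, h.leaf, h.step, h.chl, fun t ht i hi ha => h.chr t ht i hi ha fun _ => trivial⟩

omit [Fintype J] in
theorem sto_some (o : Option M.I) (i : M.I) : M.sto o (some i) = M.st i := rfl

/-- a new root -/
theorem cons {T : ℕ} {p : ℕ → ℕ} {sd : ℕ → Bool} {es : ℕ → Option M.I} {vs : ℕ → J → ℕ}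
    (h : M.TR T p sd es vs) (e : M.I) (v : J → ℕ) (e' : M.I) (he : es 0 = some e')
    (hn : M.nx e e') (hr : M.Rel e v (vs 0)) (r : Prop) (hr' : r → M.ar e = false) :
    ∃ (p' : ℕ → ℕ) (sd' : ℕ → Bool) (es' : ℕ → Option M.I) (vs' : ℕ → J → ℕ),
      PT M r (T + 1) p' sd' es' vs' ∧ es' 0 = some e ∧ vs' 0 = v ∧
      ∀ b, M.sz (T + 1) p' es' vs' b = M.own e v b + M.sz T p es vs b := by
  let p' : ℕ → ℕ := fun t => match t with
    | 0 => 0
    | 1 => 0
    | t + 2 => p (t + 1) + 1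
  let sd' : ℕ → Bool := fun t => match t with
    | 0 => false
    | 1 => false
    | t + 2 => sd (t + 1)
  let es' : ℕ → Option M.I := fun t => match t with
    | 0 => some e
    | t + 1 => es t
  let vs' : ℕ → J → ℕ := fun t => match t with
    | 0 => v
    | t + 1 => vs t
  have hch : ∀ (u : ℕ) (b : Bool), (∃! t', t' ≤ T ∧ 0 < t' ∧ p t' = u ∧ sd t' = b) →
      ∃! t', t' ≤ T + 1 ∧ 0 < t' ∧ p' t' = u + 1 ∧ sd' t' = b := by
    rintro u b ⟨t', ⟨h1, h2, h3, h4⟩, h5⟩
    obtain ⟨z, rfl⟩ : ∃ z, t' = z + 1 := ⟨t' - 1, by omega⟩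
    refine ⟨z + 2, ⟨by omega, by omega, ?_, h4⟩, ?_⟩
    · show p (z + 1) + 1 = u + 1
      rw [h3]
    · rintro y ⟨g1, g2, g3, g4⟩
      match y, g1, g2, g3, g4 with
      | 1, g1, g2, g3, g4 =>
        have g3' : 0 = u + 1 := g3
        omega
      | y + 2, g1, g2, g3, g4 =>
        have g3' : p (y + 1) + 1 = u + 1 := g3
        have g4' : sd (y + 1) = b := g4
        have := h5 (y + 1) ⟨by omega, by omega, by omega, g4'⟩
        omega
  refine ⟨p', sd', es', vs', ⟨?_, ⟨e, rfl⟩, ?_, ?_, ?_, ?_, ?_⟩, rfl, rfl, ?_⟩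
  · intro t ht
    match t, ht with
    | 1, _ => exact Nat.zero_lt_one
    | t + 2, _ =>
      have := h.par (t + 1) (by omega)
      show p (t + 1) + 1 < t + 2
      omega
  · intro t ht hl
    match t, ht, hl with
    | 0, ht, hl => exact absurd hl (by simp [es'])
    | 1, ht, hl =>
      have hl' : es 0 = none := hl
      rw [he] at hl'
      exact absurd hl' (by simp)
    | t + 2, ht, hl => exact h.leaf (t + 1) (by omega) hl
  · intro t ht ht0
    match t, ht, ht0 with
    | 1, ht, _ =>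
      refine ⟨e, rfl, hr, fun h => absurd h (by simp [sd']), ?_⟩
      intro i' hi'
      have hi'' : es 0 = some i' := hi'
      rw [he] at hi''
      rw [if_neg (by simp [sd'])]
      rw [← Option.some.inj hi'']
      exact hn
    | t + 2, ht, _ => exact h.step (t + 1) (by omega) (by omega)
  · intro t ht i hi
    match t, ht, hi with
    | 0, ht, hi =>
      refine ⟨1, ⟨by omega, by omega, rfl, rfl⟩, ?_⟩
      rintro y ⟨g1, g2, g3, g4⟩
      match y, g1, g2, g3, g4 with
      | 1, g1, g2, g3, g4 => rfl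
      | y + 2, g1, g2, g3, g4 =>
        have g3' : p (y + 1) + 1 = 0 := g3
        omega
    | t + 1, ht, hi => exact hch t false (h.chl t (by omega) i hi)
  · intro t ht i hi ha h0
    match t, ht, hi, h0 with
    | 0, ht, hi, h0 =>
      have h1 := hr' (h0 rfl)
      have h2 : some e = some i := hi
      rw [Option.some.inj h2, ha] at h1
      exact absurd h1 (by simp)
    | t + 1, ht, hi, h0 => exact hch t true (h.chr t (by omega) i hi ha)
  · intro _ t ht ht0 hp hs
    match t, ht, ht0, hp, hs with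
    | 1, _, _, _, hs => exact absurd hs (by simp [sd'])
    | t + 2, _, _, hp, _ =>
      have hp' : p (t + 1) + 1 = 0 := hp
      omega
  · intro b
    unfold BM.sz
    rw [Finset.sum_range_succ', add_comm]
    refine congr_arg₂ (· + ·) ?_ (Finset.sum_congr rfl fun t _ => ?_)
    · rfl
    · match t with
      | 0 =>
        show (if M.sto _ (es 0) = b then 1 + ∑ j, vs 0 j else 0) =
          if M.sto _ (es 0) = b then 1 + ∑ j, vs 0 j else 0
        rw [he, sto_some, sto_some]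
      | t + 1 => rfl

/-- a right child of the root -/
theorem append {T₁ : ℕ} {p₁ : ℕ → ℕ} {sd₁ : ℕ → Bool} {es₁ : ℕ → Option M.I} {vs₁ : ℕ → J → ℕ}
    (h₁ : PT M False T₁ p₁ sd₁ es₁ vs₁) {T₂ : ℕ} {p₂ : ℕ → ℕ} {sd₂ : ℕ → Bool}
    {es₂ : ℕ → Option M.I} {vs₂ : ℕ → J → ℕ} (h₂ : M.TR T₂ p₂ sd₂ es₂ vs₂) (e e₂ : M.I)
    (he₁ : es₁ 0 = some e) (he₂ : es₂ 0 = some e₂) (ha : M.ar e = true) (hn : M.nr e e₂)
    (hr : M.Rel e (vs₁ 0) (vs₂ 0)) :
    ∃ (T : ℕ) (p : ℕ → ℕ) (sd : ℕ → Bool) (es : ℕ → Option M.I) (vs : ℕ → J → ℕ),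
      M.TR T p sd es vs ∧ es 0 = some e ∧ vs 0 = vs₁ 0 ∧
      ∀ b, M.sz T p es vs b = M.sz T₁ p₁ es₁ vs₁ b + M.sz T₂ p₂ es₂ vs₂ b := by
  obtain ⟨K, hK⟩ : ∃ K, K = T₁ + 1 := ⟨_, rfl⟩
  obtain ⟨p, hp⟩ : ∃ p : ℕ → ℕ, p = fun t =>
    if t < K then p₁ t else if t = K then 0 else K + p₂ (t - K) := ⟨_, rfl⟩
  obtain ⟨sd, hsd⟩ : ∃ sd : ℕ → Bool, sd = fun t =>
    if t < K then sd₁ t else if t = K then true else sd₂ (t - K) := ⟨_, rfl⟩
  obtain ⟨es, hes⟩ : ∃ es : ℕ → Option M.I, es = fun t => if t < K then es₁ t else es₂ (t - K) :=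
    ⟨_, rfl⟩
  obtain ⟨vs, hvs⟩ : ∃ vs : ℕ → J → ℕ, vs = fun t => if t < K then vs₁ t else vs₂ (t - K) :=
    ⟨_, rfl⟩
  have pl : ∀ t < K, p t = p₁ t := fun t ht => by simp only [hp, if_pos ht]
  have pK : p K = 0 := by simp only [hp, if_neg (lt_irrefl K), if_pos]
  have ph : ∀ u, 0 < u → p (K + u) = K + p₂ u := fun u hu => by
    simp only [hp]
    rw [if_neg (by omega), if_neg (by omega), Nat.add_sub_cancel_left]
  have sl : ∀ t < K, sd t = sd₁ t := fun t ht => by simp only [hsd, if_pos ht]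
  have sK : sd K = true := by simp only [hsd, if_neg (lt_irrefl K), if_pos]
  have sh : ∀ u, 0 < u → sd (K + u) = sd₂ u := fun u hu => by
    simp only [hsd]
    rw [if_neg (by omega), if_neg (by omega), Nat.add_sub_cancel_left]
  have el : ∀ t < K, es t = es₁ t := fun t ht => by simp only [hes, if_pos ht]
  have eh : ∀ u, es (K + u) = es₂ u := fun u => by
    simp only [hes]
    rw [if_neg (by omega), Nat.add_sub_cancel_left]
  have vl : ∀ t < K, vs t = vs₁ t := fun t ht => by simp only [hvs, if_pos ht]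
  have vh : ∀ u, vs (K + u) = vs₂ u := fun u => by
    simp only [hvs]
    rw [if_neg (by omega), Nat.add_sub_cancel_left]
  have hch : ∀ (u : ℕ) (b : Bool), (∃! t', t' ≤ T₂ ∧ 0 < t' ∧ p₂ t' = u ∧ sd₂ t' = b) →
      ∃! t', t' ≤ K + T₂ ∧ 0 < t' ∧ p t' = K + u ∧ sd t' = b := by
    rintro u b ⟨t', ⟨g1, g2, g3, g4⟩, g5⟩
    refine ⟨K + t', ⟨by omega, by omega, by rw [ph t' g2, g3], by rw [sh t' g2, g4]⟩, ?_⟩
    rintro y ⟨k1, k2, k3, k4⟩
    rcases Nat.lt_or_ge y K with hy | hy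
    · rw [pl y hy] at k3
      have := h₁.par y k2
      omega
    · obtain ⟨z, rfl⟩ : ∃ z, y = K + z := ⟨y - K, by omega⟩
      rcases Nat.eq_zero_or_pos z with rfl | hz
      · rw [Nat.add_zero, pK] at k3
        omega
      · rw [ph z hz] at k3
        rw [sh z hz] at k4
        have := g5 z ⟨by omega, hz, by omega, k4⟩
        omega
  refine ⟨K + T₂, p, sd, es, vs, ⟨?_, ⟨e, ?_⟩, ?_, ?_, ?_, ?_⟩, ?_, ?_, ?_⟩
  · intro t ht
    rcases Nat.lt_or_ge t K with hy | hy
    · rw [pl t hy]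
      exact h₁.par t ht
    · obtain ⟨z, rfl⟩ : ∃ z, t = K + z := ⟨t - K, by omega⟩
      rcases Nat.eq_zero_or_pos z with rfl | hz
      · rw [Nat.add_zero, pK]
        omega
      · rw [ph z hz]
        have := h₂.par z hz
        omega
  · rw [el 0 (by omega), he₁]
  · intro t ht hl
    rcases Nat.lt_or_ge t K with hy | hy
    · rw [el t hy] at hl
      have ht0 : 0 < t := by
        rcases Nat.eq_zero_or_pos t with rfl | h
        · rw [he₁] at hl
          exact absurd hl (by simp)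
        · exact h
      have := h₁.par t ht0
      rw [vl t hy, sl t hy, pl t hy, el _ (by omega)]
      exact h₁.leaf t (by omega) hl
    · obtain ⟨z, rfl⟩ : ∃ z, t = K + z := ⟨t - K, by omega⟩
      rw [eh] at hl
      rcases Nat.eq_zero_or_pos z with rfl | hz
      · rw [he₂] at hl
        exact absurd hl (by simp)
      · rw [vh, sh z hz, ph z hz, eh]
        exact h₂.leaf z (by omega) hl
  · intro t ht ht0
    rcases Nat.lt_or_ge t K with hy | hy
    · have := h₁.par t ht0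
      rw [pl t hy, vl t hy, sl t hy, el t hy, el _ (by omega), vl _ (by omega)]
      exact h₁.step t (by omega) ht0
    · obtain ⟨z, rfl⟩ : ∃ z, t = K + z := ⟨t - K, by omega⟩
      rcases Nat.eq_zero_or_pos z with rfl | hz
      · have h3 := vh 0
        have h4 := eh 0
        rw [Nat.add_zero] at h3 h4 ⊢
        rw [pK, sK, h3, h4, vl 0 (by omega), el 0 (by omega)]
        refine ⟨e, he₁, hr, fun _ => ha, ?_⟩
        intro i' hi'
        rw [he₂] at hi'
        rw [if_pos rfl, ← Option.some.inj hi']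
        exact hn
      · rw [ph z hz, sh z hz, vh, vh, eh, eh]
        exact h₂.step z (by omega) hz
  · intro t ht i hi
    rcases Nat.lt_or_ge t K with hy | hy
    · rw [el t hy] at hi
      obtain ⟨t', ⟨g1, g2, g3, g4⟩, g5⟩ := h₁.chl t (by omega) i hi
      refine ⟨t', ⟨by omega, g2, by rw [pl t' (by omega), g3], by rw [sl t' (by omega), g4]⟩, ?_⟩
      rintro y ⟨k1, k2, k3, k4⟩
      rcases Nat.lt_or_ge y K with hz | hz
      · rw [pl y hz] at k3
        rw [sl y hz] at k4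
        exact g5 y ⟨by omega, k2, k3, k4⟩
      · obtain ⟨z, rfl⟩ : ∃ z, y = K + z := ⟨y - K, by omega⟩
        rcases Nat.eq_zero_or_pos z with rfl | hz
        · rw [Nat.add_zero, sK] at k4
          exact absurd k4 (by simp)
        · rw [ph z hz] at k3
          omega
    · obtain ⟨z, rfl⟩ : ∃ z, t = K + z := ⟨t - K, by omega⟩
      rw [eh] at hi
      exact hch z false (h₂.chl z (by omega) i hi)
  · intro t ht i hi hai
    rcases Nat.lt_or_ge t K with hy | hy
    · rw [el t hy] at hi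
      rcases Nat.eq_zero_or_pos t with rfl | ht0
      · refine ⟨K, ⟨by omega, by omega, pK, sK⟩, ?_⟩
        rintro y ⟨k1, k2, k3, k4⟩
        rcases Nat.lt_or_ge y K with hz | hz
        · rw [pl y hz] at k3
          rw [sl y hz] at k4
          exact (h₁.chr0 id y (by omega) k2 k3 k4).elim
        · obtain ⟨z, rfl⟩ : ∃ z, y = K + z := ⟨y - K, by omega⟩
          rcases Nat.eq_zero_or_pos z with rfl | hz
          · rfl
          · rw [ph z hz] at k3
            omega
      · obtain ⟨t', ⟨g1, g2, g3, g4⟩, g5⟩ := h₁.chr t (by omega) i hi hai (fun h => by omega)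
        refine ⟨t', ⟨by omega, g2, by rw [pl t' (by omega), g3], by rw [sl t' (by omega), g4]⟩, ?_⟩
        rintro y ⟨k1, k2, k3, k4⟩
        rcases Nat.lt_or_ge y K with hz | hz
        · rw [pl y hz] at k3
          rw [sl y hz] at k4
          exact g5 y ⟨by omega, k2, k3, k4⟩
        · obtain ⟨z, rfl⟩ : ∃ z, y = K + z := ⟨y - K, by omega⟩
          rcases Nat.eq_zero_or_pos z with rfl | hz
          · rw [Nat.add_zero, pK] at k3
            omega
          · rw [ph z hz] at k3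
            omega
    · obtain ⟨z, rfl⟩ : ∃ z, t = K + z := ⟨t - K, by omega⟩
      rw [eh] at hi
      exact hch z true (h₂.chr z (by omega) i hi hai)
  · rw [el 0 (by omega), he₁]
  · exact vl 0 (by omega)
  · intro b
    unfold BM.sz
    rw [show K + T₂ + 1 = (T₁ + 1) + (T₂ + 1) by omega, Finset.sum_range_add]
    refine congr_arg₂ (· + ·) (Finset.sum_congr rfl fun t ht => ?_)
      (Finset.sum_congr rfl fun t ht => ?_)
    · have ht' := Finset.mem_range.mp ht
      rw [el t (by omega), vl t (by omega)]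
      rcases Nat.eq_zero_or_pos t with rfl | ht0
      · rw [he₁, sto_some, sto_some]
      · have := h₁.par t ht0
        rw [pl t (by omega), el _ (by omega)]
    · rw [← hK, eh, vh]
      rcases Nat.eq_zero_or_pos t with rfl | ht0
      · rw [he₂, sto_some, sto_some]
      · rw [ph t ht0, eh]

/-- a root with a leaf -/
theorem tr_fin (e : M.I) (v : J → ℕ) (ha : M.ar e = false) (hf : M.fi e)
    (hr : M.Rel e v fun _ => 0) :
    ∃ (T : ℕ) (p : ℕ → ℕ) (sd : ℕ → Bool) (es : ℕ → Option M.I) (vs : ℕ → J → ℕ),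
      M.TR T p sd es vs ∧ es 0 = some e ∧ vs 0 = v ∧
      ∀ b, M.sz T p es vs b = M.own e v b + if M.st e = b then 1 else 0 := by
  refine ⟨1, fun _ => 0, fun _ => false, fun t => if t = 0 then some e else none,
    fun t => if t = 0 then v else fun _ => 0, ⟨?_, ⟨e, if_pos rfl⟩, ?_, ?_, ?_, ?_⟩,
    if_pos rfl, if_pos rfl, ?_⟩
  · exact fun t ht => ht
  · intro t ht hl
    have ht0 : t ≠ 0 := by
      rintro rfl
      rw [if_pos rfl] at hl
      exact absurd hl (by simp)
    refine ⟨fun j => by rw [if_neg ht0], rfl, e, if_pos rfl, hf, ha⟩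
  · intro t ht ht0
    refine ⟨e, if_pos rfl, ?_, fun h => absurd h (by simp), ?_⟩
    · rw [if_pos rfl, if_neg (by omega)]
      exact hr
    · intro i' hi'
      rw [if_neg (by omega)] at hi'
      exact absurd hi' (by simp)
  · intro t ht i hi
    have ht0 : t = 0 := by
      by_contra h
      rw [if_neg h] at hi
      exact absurd hi (by simp)
    subst ht0
    exact ⟨1, ⟨le_refl 1, Nat.one_pos, rfl, rfl⟩, fun y hy => by
      have := hy.1
      have := hy.2.1
      omega⟩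
  · intro t ht i hi hai
    exfalso
    by_cases h : t = 0
    · rw [if_pos h] at hi
      rw [← Option.some.inj hi, ha] at hai
      exact absurd hai (by simp)
    · rw [if_neg h] at hi
      exact absurd hi (by simp)
  · intro b
    unfold BM.sz
    rw [Finset.sum_range_succ, Finset.sum_range_one]
    refine congr_arg₂ (· + ·) ?_ ?_
    · simp only [if_true]
      rfl
    · show (if M.st e = b then 1 + ∑ _j : J, 0 else 0) = _
      rw [Finset.sum_const_zero, Nat.add_zero]

end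

theorem pf_TRA : T_TRA := by
  intro J _ M e v s h
  induction h with
  | fin e v s ha hf hr hs =>
    obtain ⟨T, p, sd, es, vs, h1, h2, h3, h4⟩ := tr_fin e v ha hf hr
    exact ⟨T, p, sd, es, vs, h1, h2, h3, fun b => by rw [h4, hs]⟩
  | one e v e' v' s' s ha hn hr ht hs ih =>
    obtain ⟨T, p, sd, es, vs, h1, h2, h3, h4⟩ := ih
    obtain ⟨p', sd', es', vs', g1, g2, g3, g4⟩ := cons h1 e v e' h2 hn (by rw [h3]; exact hr)
      True fun _ => ha
    exact ⟨T + 1, p', sd', es', vs', g1.tr, g2, g3, fun b => by rw [g4, h4, hs]⟩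
  | two e v e₁ v₁ s₁ e₂ v₂ s₂ s ha hn₁ hn₂ hr₁ hr₂ ht₁ ht₂ hs ih₁ ih₂ =>
    obtain ⟨T, p, sd, es, vs, h1, h2, h3, h4⟩ := ih₁
    obtain ⟨T₂, p₂, sd₂, es₂, vs₂, k1, k2, k3, k4⟩ := ih₂
    obtain ⟨p', sd', es', vs', g1, g2, g3, g4⟩ := cons h1 e v e₁ h2 hn₁ (by rw [h3]; exact hr₁)
      False fun h => h.elim
    obtain ⟨T₃, p₃, sd₃, es₃, vs₃, l1, l2, l3, l4⟩ := append g1 k1 e e₂ g2 k2 ha hn₂
      (by rw [g3, k3]; exact hr₂)
    exact ⟨T₃, p₃, sd₃, es₃, vs₃, l1, l2, by rw [l3, g3], fun b => by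
      rw [l4, g4, h4, k4, hs]⟩

end Pool.Agent.H88.CHD
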